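import Pool.Agent.Lib.MP_b5021c_nt.IfaceD

/-!
# MP_b5021c_nt, row C4C: unit apex
-/

namespace Pool.Agent.B5.C4C

open scoped LaurentPolynomial
open Polynomial

/-- Invertible elements of group algebras over domains are monomials. -/
lemma single_of_mul_eq_one {k G : Type} [CommRing k] [IsDomain k] [AddCommGroup G] [TwoUniqueSums G]
    {x y : AddMonoidAlgebra k G} (h : x * y = 1) :
    ∃ (a : G) (c : k), IsUnit c ∧ x = AddMonoidAlgebra.single a c := by
  classical
  have hx : x.coeff.support.Nonempty := by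
    rw [Finsupp.support_nonempty_iff, ne_eq, AddMonoidAlgebra.coeff_eq_zero]
    rintro rfl
    rw [zero_mul] at h
    exact zero_ne_one h
  have hy : y.coeff.support.Nonempty := by
    rw [Finsupp.support_nonempty_iff, ne_eq, AddMonoidAlgebra.coeff_eq_zero]
    rintro rfl
    rw [mul_zero] at h
    exact zero_ne_one h
  have key : ∀ p ∈ x.coeff.support ×ˢ y.coeff.support,
      UniqueAdd x.coeff.support y.coeff.support p.1 p.2 →
      p.1 + p.2 = 0 ∧ x.coeff p.1 * y.coeff p.2 = 1 := by
    intro p hp hu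
    have h1 := AddMonoidAlgebra.coeff_mul_add_of_uniqueAdd hu
    rw [h] at h1
    obtain ⟨hp1, hp2⟩ := Finset.mem_product.1 hp
    have h2 : x.coeff p.1 * y.coeff p.2 ≠ 0 :=
      mul_ne_zero (Finsupp.mem_support_iff.1 hp1) (Finsupp.mem_support_iff.1 hp2)
    rw [← h1, AddMonoidAlgebra.one_def, AddMonoidAlgebra.coeff_single, Finsupp.single_apply] at h2
    by_cases h3 : (0 : G) = p.1 + p.2
    · refine ⟨h3.symm, ?_⟩
      rw [← h1, AddMonoidAlgebra.one_def, AddMonoidAlgebra.coeff_single, Finsupp.single_apply, if_pos h3]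
    · rw [if_neg h3] at h2
      exact absurd rfl h2
  have hcard : x.coeff.support.card = 1 := by
    by_contra hne
    have h1 : 1 < x.coeff.support.card * y.coeff.support.card := by
      have h2 := hx.card_pos
      have h3 := hy.card_pos
      have h4 : 1 < x.coeff.support.card := by omega
      calc 1 < x.coeff.support.card * 1 := by omega
        _ ≤ _ := Nat.mul_le_mul_left _ h3
    obtain ⟨p, hp, q, hq, hpq, up, uq⟩ := TwoUniqueSums.uniqueAdd_of_one_lt_card h1
    have hp0 := (key p hp up).1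
    have hq0 := (key q hq uq).1
    obtain ⟨hq1, hq2⟩ := Finset.mem_product.1 hq
    have h5 := up hq1 hq2 (hq0.trans hp0.symm)
    exact hpq (Prod.ext h5.1.symm h5.2.symm)
  obtain ⟨a, ha⟩ := Finset.card_eq_one.1 hcard
  have hxa : x = AddMonoidAlgebra.single a (x.coeff a) := by
    apply AddMonoidAlgebra.ext
    rw [AddMonoidAlgebra.coeff_single]
    apply Finsupp.ext
    intro b
    rw [Finsupp.single_apply]
    split_ifs with hab
    · rw [hab]
    · rw [← Finsupp.notMem_support_iff, ha, Finset.mem_singleton]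
      exact fun h => hab h.symm
  refine ⟨a, x.coeff a, ?_, hxa⟩
  obtain ⟨b, hb⟩ := hy
  obtain ⟨p, hp, q, hq, hu⟩ := UniqueSums.uniqueAdd_of_nonempty hx ⟨b, hb⟩
  have h6 := (key (p, q) (Finset.mem_product.2 ⟨hp, hq⟩) hu).2
  rw [ha, Finset.mem_singleton] at hp
  subst hp
  exact IsUnit.of_mul_eq_one _ h6

lemma twoUnique (L : Type) [AddCommGroup L] [Module.Free ℤ L] [Module.Finite ℤ L] :
    TwoUniqueSums L := by
  let b := Module.Free.chooseBasis ℤ L
  exact TwoUniqueSums.of_injective_addHom b.repr.toAddEquiv.toAddMonoidHom.toAddHom b.repr.injective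
    inferInstance

section

variable {O : Type} [CommRing O] [IsDomain O] [Coef O]

omit [IsDomain O] in
lemma evR_single (z : Circle) (n : ℤ) (u : O) :
    evR z (AddMonoidAlgebra.single n u : RO O) = Coef.emb u * (z : ℂ) ^ n := by
  have : (AddMonoidAlgebra.single n u : RO O) = LaurentPolynomial.C u * LaurentPolynomial.T n := by
    rw [← LaurentPolynomial.single_eq_C_mul_T]
  rw [this, evR]
  simp

lemma norm_evR_unit (z : Circle) {c : RO O} (hc : IsUnit c) : ‖evR z c‖ = 1 := by
  obtain ⟨d, hd⟩ := hc.exists_right_inv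
  obtain ⟨n, u, hu, rfl⟩ := single_of_mul_eq_one hd
  obtain ⟨v, hv⟩ := hu.exists_right_inv
  rw [evR_single, norm_mul, norm_zpow, Circle.norm_coe, one_zpow, mul_one]
  have h1 : ‖(Coef.emb u : ℂ)‖ * ‖(Coef.emb v : ℂ)‖ = 1 := by
    rw [← norm_mul, ← map_mul, hv, map_one, norm_one]
  have h2 : 1 ≤ ‖(Coef.emb u : ℂ)‖ := Coef.one_le u hu.ne_zero
  have h3 : 1 ≤ ‖(Coef.emb v : ℂ)‖ := Coef.one_le v (by
    rintro rfl
    rw [mul_zero] at hv
    exact zero_ne_one hv)
  nlinarith

end

lemma isUnit_of_cst {O : Type} [CommRing O] {L : Type} [AddCommGroup L] [TwoUniqueSums L] [IsDomain O]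
    [IsDomain (RO O)] {c : RO O} (h : IsUnit (cst (L := L) c)) : IsUnit c := by
  classical
  obtain ⟨d, hd⟩ := h.exists_right_inv
  obtain ⟨a, u, hu, hc⟩ := single_of_mul_eq_one hd
  have h1 : (cst (L := L) c).coeff a = u := by rw [hc]; simp
  rw [cst, AddMonoidAlgebra.coeff_single, Finsupp.single_apply] at h1
  split_ifs at h1 with h2
  · rw [h1]; exact hu
  · rw [← h1] at hu
    exact absurd hu not_isUnit_zero

/-- Irreducible elements which depend on `w` are primitive. -/
lemma prim_of_irr {O : Type} [CommRing O] [IsDomain O] {L : Type} [AddCommGroup L] [TwoUniqueSums L]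
    {G : AO O L} (hG : Irreducible G) (hw : Wdep G) : Prim G := by
  classical
  intro c hc
  obtain ⟨K, hK⟩ := hc
  rcases hG.isUnit_or_isUnit hK with h | h
  · exact isUnit_of_cst h
  · exfalso
    obtain ⟨d, hd⟩ := h.exists_right_inv
    obtain ⟨a, u, hu, hKa⟩ := single_of_mul_eq_one hd
    have hGs : G = AddMonoidAlgebra.single a (c * u) := by
      rw [hK, hKa, cst, AddMonoidAlgebra.single_mul_single, zero_add]
    obtain ⟨x, hx, y, hy, hxy⟩ := hw
    have h1 : ∀ b ∈ supp G, b = a := by
      intro b hb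
      by_contra hne
      apply hb
      rw [hGs, AddMonoidAlgebra.coeff_single, Finsupp.single_apply, if_neg (fun h => hne h.symm)]
    exact hxy ((h1 x hx).trans (h1 y hy).symm)

/-- The two-term face. -/
lemma sl_two {O : Type} [CommRing O] [Coef O] {L : Type} [AddCommGroup L] (p q : RO O) (b : L)
    (hb : b ≠ 0) (z : Circle) (u : AddChar L Circle) (mu : L →+ ℤ) (s : ℂ) :
    (sl u mu (spec z (AddMonoidAlgebra.single 0 p + AddMonoidAlgebra.single b q))).eval s =
      evR z p + evR z q * (u b : ℂ) * s ^ (mu b).toNat := by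
  classical
  have h1 : spec z (AddMonoidAlgebra.single (0 : L) p + AddMonoidAlgebra.single b q : AO O L) =
      (AddMonoidAlgebra.single 0 (evR z p) + AddMonoidAlgebra.single b (evR z q) : CA L) := by
    rw [map_add, spec]
    simp
  rw [h1, sl, AddMonoidAlgebra.coeff_add, AddMonoidAlgebra.coeff_single, AddMonoidAlgebra.coeff_single,
    Finsupp.sum_add_index', Finsupp.sum_single_index, Finsupp.sum_single_index]
  · simp
  · simp
  · simp
  · intro a; simp
  · intro a c d; rw [add_mul, map_add]

theorem c4 (c3 : C3S) (b2c : B2cS) (b3 : B3S) (a1 : A1S) (m1 : M1S) (rsp : RaySpanS) : C4S := by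
  intro O _ _ _ _ L _ _ _ G hirr hst hw hthin hM
  classical
  haveI := twoUnique L
  have hprim := prim_of_irr hirr hw
  have h0 : G.coeff 0 ≠ 0 := hst.1
  have hunit : IsUnit (G.coeff 0) := m1 O _ h0 hM (b3 O L G hst hprim)
  obtain ⟨mu, hmu⟩ : ∃ lam : L →+ ℤ, Pos lam G := ⟨hst.2.choose, hst.2.choose_spec.1⟩
  obtain ⟨b, hb⟩ := (rsp O L G ⟨mu, hmu⟩ hthin).2.2 hw
  have hbnorm := (b2c O L G hst).2 b hb
  obtain ⟨hbs, hb0, lam, hlb, hlam⟩ := hb
  have hbunit : IsUnit (G.coeff b) := by
    refine a1 O _ hbs fun z => (hbnorm z).trans ?_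
    rw [norm_evR_unit z hunit]
  -- the face
  set h : AO O L := AddMonoidAlgebra.single 0 (G.coeff 0) + AddMonoidAlgebra.single b (G.coeff b) with hh
  have hc0 : h.coeff 0 = G.coeff 0 := by
    rw [hh, AddMonoidAlgebra.coeff_add, AddMonoidAlgebra.coeff_single, AddMonoidAlgebra.coeff_single,
      Finsupp.add_apply, Finsupp.single_apply, Finsupp.single_apply, if_pos rfl, if_neg hb0, add_zero]
  have hcb : h.coeff b = G.coeff b := by
    rw [hh, AddMonoidAlgebra.coeff_add, AddMonoidAlgebra.coeff_single, AddMonoidAlgebra.coeff_single,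
      Finsupp.add_apply, Finsupp.single_apply, Finsupp.single_apply, if_pos rfl, if_neg (Ne.symm hb0),
      zero_add]
  have hco : ∀ a, a ≠ 0 → a ≠ b → h.coeff a = 0 := by
    intro a ha hab
    rw [hh, AddMonoidAlgebra.coeff_add, AddMonoidAlgebra.coeff_single, AddMonoidAlgebra.coeff_single,
      Finsupp.add_apply, Finsupp.single_apply, Finsupp.single_apply, if_neg (Ne.symm ha),
      if_neg (Ne.symm hab), add_zero]
  have hmub : 0 < mu b := hmu b (Finsupp.mem_support_iff.2 hbs) hb0
  have hposh : Pos mu h := by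
    intro a ha ha0
    rcases eq_or_ne a b with rfl | hab
    · exact hmub
    · exact absurd (hco a ha0 hab) (Finsupp.mem_support_iff.1 ha)
  have hface : gpart lam 0 G = h := by
    apply AddMonoidAlgebra.ext
    apply Finsupp.ext
    intro a
    change (G.coeff.filter fun a => lam a = 0) a = h.coeff a
    rw [Finsupp.filter_apply]
    rcases eq_or_ne a 0 with rfl | ha0
    · rw [if_pos (map_zero lam), hc0]
    rcases eq_or_ne a b with rfl | hab
    · rw [if_pos hlb, hcb]
    · rw [hco a ha0 hab]
      split_ifs with hla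
      · by_contra hne
        have := hlam a hne ha0 hab
        omega
      · rfl
  have hfull : FullAt mu h := by
    refine ⟨by rw [hc0]; exact h0, hposh, fun z _ u s hs => ?_⟩
    rw [hh, sl_two _ _ b hb0] at hs
    have h1 : ‖evR z (G.coeff b) * (u b : ℂ) * s ^ (mu b).toNat‖ = ‖evR z (G.coeff 0)‖ := by
      rw [← norm_neg (evR z (G.coeff 0))]
      congr 1
      linear_combination hs
    rw [norm_mul, norm_mul, norm_evR_unit z hunit, norm_evR_unit z hbunit, Circle.norm_coe, one_mul,
      one_mul, norm_pow] at h1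
    exact (pow_eq_one_iff_of_nonneg (norm_nonneg s) (by omega)).1 h1
  have hprimh : Prim h := by
    intro c hc
    obtain ⟨K, hK⟩ := hc
    have h1 : G.coeff 0 = c * K.coeff 0 := by
      rw [← hc0, hK, cst, AddMonoidAlgebra.coeff_single_zero_mul]
    rw [h1] at hunit
    exact isUnit_of_mul_isUnit_left hunit
  have hwh : Wdep h := ⟨0, by change h.coeff 0 ≠ 0; rw [hc0]; exact h0, b, by
    change h.coeff b ≠ 0; rw [hcb]; exact hbs, Ne.symm hb0⟩
  have hnn : Nn lam G := by
    intro a ha
    rcases eq_or_ne a 0 with rfl | ha0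
    · rw [map_zero]
    rcases eq_or_ne a b with rfl | hab
    · rw [hlb]
    · exact (hlam a (Finsupp.mem_support_iff.1 ha) ha0 hab).le
  have hfin := (c3 O L G h lam mu hirr hst hnn hfull hprimh hwh (by rw [hface])).2
  refine ⟨hunit, b, hb0, hbunit, ?_⟩
  apply Set.eq_of_subset_of_subset
  · intro a ha
    rcases eq_or_ne a 0 with rfl | ha0
    · exact Set.mem_insert _ _
    rcases eq_or_ne a b with rfl | hab
    · exact Set.mem_insert_of_mem _ rfl
    · have h1 := hlam a ha ha0 hab
      have h2 := hfin a ha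
      omega
  · intro a ha
    rcases ha with rfl | rfl
    · exact h0
    · exact hbs

end Pool.Agent.B5.C4C
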