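import Pool.Agent.Lib.MP_b5021c_nt.IfaceK1

/-!
# MP_b5021c_nt, row POL: if `a` is a `BP` sequence with `t = θ`, then `a Q` is a polynomial
-/

namespace Pool.Agent.MP_b5021c_nt.POL

open Polynomial Filter Topology

/-- A square summable real sequence tends to zero. -/
lemma tendsto_of_sq {h : ℕ → ℝ} (hs : Summable (fun j => h j ^ 2)) : Tendsto h atTop (𝓝 0) := by
  have h1 := hs.tendsto_atTop_zero
  have h2 : Tendsto (fun j => Real.sqrt (h j ^ 2)) atTop (𝓝 (Real.sqrt 0)) :=
    (Real.continuous_sqrt.tendsto 0).comp h1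
  simp only [Real.sqrt_sq_eq_abs, Real.sqrt_zero] at h2
  exact (tendsto_zero_iff_abs_tendsto_zero _).2 h2

/-- The coefficients of a polynomial times a null sequence tend to zero. -/
lemma tendsto_coeff (P : ℂ[X]) {h : ℕ → ℂ} (hh : Tendsto h atTop (𝓝 0)) :
    Tendsto (fun n => PowerSeries.coeff n ((P : PowerSeries ℂ) * PowerSeries.mk h)) atTop (𝓝 0) := by
  have hs : Tendsto (fun n => ∑ k ∈ Finset.range (P.natDegree + 1), P.coeff k * h (n - k)) atTop
      (𝓝 (∑ k ∈ Finset.range (P.natDegree + 1), P.coeff k * 0)) :=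
    tendsto_finset_sum _ fun k _ => (hh.comp (tendsto_sub_atTop_nat k)).const_mul _
  simp only [mul_zero, Finset.sum_const_zero] at hs
  refine hs.congr' ?_
  filter_upwards [eventually_ge_atTop P.natDegree] with n hn
  rw [PowerSeries.coeff_mul,
    Finset.Nat.sum_antidiagonal_eq_sum_range_succ
      (fun i j => PowerSeries.coeff i (P : PowerSeries ℂ) * PowerSeries.coeff j (PowerSeries.mk h)) n]
  simp only [Polynomial.coeff_coe, PowerSeries.coeff_mk]
  refine Finset.sum_subset (Finset.range_subset_range.2 (by omega)) ?_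
  intro k _ hk
  rw [Polynomial.coeff_eq_zero_of_natDegree_lt (by simp at hk; omega), zero_mul]

theorem pol : PolS := by
  intro Q θ a c h hQ hBP
  obtain ⟨h1, hq0, g, hg, -⟩ := hQ
  obtain ⟨-, ha, hs, -⟩ := hBP
  have hh : Tendsto (fun n => ((h n : ℝ) : ℂ)) atTop (𝓝 0) := by
    have := (Complex.continuous_ofReal.tendsto 0).comp (tendsto_of_sq hs)
    simpa [Function.comp_def] using this
  -- the identity over the complex numbers
  have key : PowerSeries.map (Int.castRingHom ℂ) (PowerSeries.mk a * (Q : PowerSeries ℤ)) =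
      (((C (c : ℂ) * g : ℂ[X]) : PowerSeries ℂ)) +
        ((Q.map (Int.castRingHom ℂ) : ℂ[X]) : PowerSeries ℂ) *
          PowerSeries.mk (fun n => ((h n : ℝ) : ℂ)) := by
    have e1 : PowerSeries.map (Int.castRingHom ℂ) (PowerSeries.mk a) =
        PowerSeries.C (c : ℂ) * PowerSeries.mk (fun n => (θ : ℂ) ^ n) +
          PowerSeries.mk (fun n => ((h n : ℝ) : ℂ)) := by
      ext n
      have := ha n
      simp only [PowerSeries.coeff_map, PowerSeries.coeff_mk, map_add, PowerSeries.coeff_C_mul]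
      have h2 : ((a n : ℝ) : ℂ) = ((c * θ ^ n + h n : ℝ) : ℂ) := by rw [this]
      simpa using h2
    have e2 : PowerSeries.map (Int.castRingHom ℂ) (Q : PowerSeries ℤ) =
        ((Q.map (Int.castRingHom ℂ) : ℂ[X]) : PowerSeries ℂ) := by
      ext n
      simp
    have e3 : PowerSeries.mk (fun n => (θ : ℂ) ^ n) * (1 - PowerSeries.C (θ : ℂ) * PowerSeries.X) =
        1 := by
      ext n
      rcases n with _ | n
      · simp [mul_sub]
      · rw [mul_sub, mul_one, map_sub, ← mul_assoc, PowerSeries.coeff_succ_mul_X,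
          PowerSeries.coeff_mul_C, PowerSeries.coeff_mk, PowerSeries.coeff_mk, PowerSeries.coeff_one]
        simp [pow_succ]
    have e4 : ((Q.map (Int.castRingHom ℂ) : ℂ[X]) : PowerSeries ℂ) =
        (1 - PowerSeries.C (θ : ℂ) * PowerSeries.X) * (g : PowerSeries ℂ) := by
      rw [hg]
      push_cast
      ring
    rw [map_mul, e1, e2, add_mul, mul_comm (PowerSeries.mk _) ((Q.map _ : ℂ[X]) : PowerSeries ℂ)]
    congr 1
    rw [e4, mul_assoc, ← mul_assoc (PowerSeries.mk _), e3, one_mul]
    push_cast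
    ring
  have hsmall : ∀ᶠ n in atTop, PowerSeries.coeff n (PowerSeries.mk a * (Q : PowerSeries ℤ)) = 0 := by
    have ht := tendsto_coeff (Q.map (Int.castRingHom ℂ)) hh
    have ht' := ht.norm
    rw [norm_zero] at ht'
    filter_upwards [ht'.eventually (gt_mem_nhds one_pos), eventually_gt_atTop g.natDegree] with n hn hgn
    have hk := congrArg (PowerSeries.coeff n) key
    rw [PowerSeries.coeff_map, map_add, Polynomial.coeff_coe, Polynomial.coeff_C_mul,
      Polynomial.coeff_eq_zero_of_natDegree_lt hgn, mul_zero, zero_add] at hk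
    rw [← hk] at hn
    have : ‖((PowerSeries.coeff n (PowerSeries.mk a * (Q : PowerSeries ℤ)) : ℤ) : ℂ)‖ < 1 := by
      simpa using hn
    rw [Complex.norm_intCast] at this
    have h3 : |PowerSeries.coeff n (PowerSeries.mk a * (Q : PowerSeries ℤ))| < 1 := by
      exact_mod_cast this
    exact Int.abs_lt_one_iff.1 h3
  obtain ⟨N, hN⟩ := eventually_atTop.1 hsmall
  refine ⟨PowerSeries.trunc N (PowerSeries.mk a * (Q : PowerSeries ℤ)), ?_⟩
  unfold IsQuot
  ext n
  rw [Polynomial.coeff_coe, PowerSeries.coeff_trunc]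
  split_ifs with hn
  · rfl
  · exact hN n (not_lt.1 hn)

end Pool.Agent.MP_b5021c_nt.POL
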